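import Mathlib

namespace Pool.Agent.Results.MP_aa3754_al.StarFails

variable {F V : Type} [Field F] [AddCommGroup V] [Module F V]

/-- complete linearization of a cubic form -/
def N3 (N : V → F) (v u w : V) : F :=
  N (v + u + w) - N (v + u) - N (v + w) - N (u + w) + N u + N v + N w

def T (N : V → F) (c r : V) : F := N3 N r c c / 2

/-- the form (r, q) -/
def B (N : V → F) (Δ : V → V → F) (c r q : V) : F := T N c r * T N c q - N3 N r q c - Δ r q

def sp (sh : V → V) (r q : V) : V := sh (r + q) - sh r - sh q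

/-- generalized sharped cubic forms -/
def GenSharped (N : V → F) (Δ : LinearMap.BilinForm F V) (sh : QuadraticMap F V V) (c : V) : Prop :=
  (∃ N2 : V →ₗ[F] QuadraticForm F V, ∀ (x y : V) (l : F),
    N (x + l • y) = N x + l * N2 y x + l ^ 2 * N2 x y + l ^ 3 * N y) ∧
  N c = 1 ∧ (∀ r q, Δ r q = Δ q r) ∧ (∀ r, Δ r c = 0) ∧
  (∀ r q, B N (Δ · ·) c (sp sh r q) r + B N (Δ · ·) c (sh r) q = 3 * (N3 N r r q / 2)) ∧
  (∀ r, sh (sh r) = (N r + Δ (sh r) r) • r) ∧ ∀ r, sp sh c r = T N c r • c - r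

theorem result (F : Type) [Field F] (h2 : (2 : F) ≠ 0) :
    ∃ (N : (Fin 3 → F) → F) (Δ : LinearMap.BilinForm F (Fin 3 → F))
      (sh : QuadraticMap F (Fin 3 → F) (Fin 3 → F)) (c : Fin 3 → F), GenSharped N Δ sh c ∧
      ∃ r q s, Δ (sp sh r q) s - Δ r (sp sh q s) ≠
        1 / 3 * (T N c s * Δ r q - T N c r * Δ q s) := by
  let P : Fin 3 → Fin 3 → QuadraticForm F (Fin 3 → F) := fun i j => QuadraticMap.proj i j
  let L : Fin 3 → QuadraticForm F (Fin 3 → F) → (Fin 3 → F) →ₗ[F] QuadraticForm F (Fin 3 → F) :=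
    fun i Q => (LinearMap.proj i : (Fin 3 → F) →ₗ[F] F).smulRight Q
  let sh : QuadraticMap F (Fin 3 → F) (Fin 3 → F) := LinearMap.BilinMap.toQuadraticMap
    (LinearMap.mk₂ F (fun x y => ![x 0 * y 0, -(x 0 * y 1), x 1 * y 1 - x 0 * y 2])
    (by intros; ext i; fin_cases i <;> simp <;> ring) (by intros; ext i; fin_cases i <;> simp <;> ring)
    (by intros; ext i; fin_cases i <;> simp <;> ring) (by intros; ext i; fin_cases i <;> simp <;> ring))
  have hs : ∀ x, sh x = ![x 0 * x 0, -(x 0 * x 1), x 1 * x 1 - x 0 * x 2] := fun _ => rfl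
  let Δ : LinearMap.BilinForm F (Fin 3 → F) := LinearMap.mk₂ F (fun x y => x 1 * y 1 + x 2 * y 2)
    (by intros; simp; ring) (by intros; simp; ring) (by intros; simp; ring) (by intros; simp; ring)
  have hΔ : ∀ x y, Δ x y = x 1 * y 1 + x 2 * y 2 := fun _ _ => rfl
  refine ⟨fun x => x 0 ^ 3 + x 0 * (x 1 ^ 2 + x 2 ^ 2) - x 1 ^ 2 * x 2, Δ, sh, ![1, 0, 0],
    ⟨⟨L 0 ((3 : F) • P 0 0 + P 1 1 + P 2 2) + L 1 ((2 : F) • P 0 1 - (2 : F) • P 1 2)
      + L 2 ((2 : F) • P 0 2 - P 1 1), fun x y l => ?_⟩, by simp, fun r q => ?_, fun r => ?_,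
      fun r q => ?_, fun r => ?_, fun r => ?_⟩, ![0, 1, 0], ![0, 1, 0], ![0, 0, 1], ?_⟩
  · simp [L, P]; ring
  · simp only [hΔ]; ring
  · simp [hΔ]
  · simp only [B, T, N3, sp, hΔ, hs, Pi.add_apply, Pi.sub_apply, Matrix.cons_val_zero,
      Matrix.cons_val_one, Matrix.cons_val_two, Matrix.head_cons, Matrix.tail_cons]
    field_simp; ring
  · ext i; fin_cases i <;> simp [hΔ, hs] <;> ring
  · ext i; fin_cases i <;> simp [T, N3, sp, hs, Matrix.vecHead, Matrix.vecTail] <;> field_simp <;> ring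
  · simp [T, N3, sp, hΔ, hs]
    norm_num
    exact h2

end Pool.Agent.Results.MP_aa3754_al.StarFails
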